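import Pool.Agent.L0h31.GT.Stm

/-!
# Gelfand-Tsetlin polytopes: module BIAL (Jacobi's bialternants in degree one and two)
-/

set_option autoImplicit false

open Finset

namespace Pool.Agent.L0h10.GT

open Pool.Agent.L0h31.GT

lemma p1_snoc {n : ℕ} (x : Fin (n + 1) → ℝ) : p1 x = p1 (fun i : Fin n => x i.castSucc) + x (Fin.last n) := by
  unfold p1
  rw [Fin.sum_univ_castSucc]

lemma p2_snoc {n : ℕ} (x : Fin (n + 1) → ℝ) :
    p2 x = p2 (fun i : Fin n => x i.castSucc) + x (Fin.last n) ^ 2 := by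
  unfold p2
  rw [Fin.sum_univ_castSucc]

/-- the product of the linear factors -/
lemma vieta : ∀ (n : ℕ) (x : Fin n → ℝ), ∃ c : ℕ → ℝ,
    (∀ t : ℝ, ∏ i, (t - x i) = t ^ n - ∑ k ∈ range n, c k * t ^ k) ∧
    (∀ m, n = m + 1 → c m = p1 x) ∧ (∀ m, n = m + 2 → c m = -((p1 x ^ 2 - p2 x) / 2)) := by
  intro n
  induction n with
  | zero =>
    intro x
    exact ⟨fun _ => 0, fun t => by simp, fun m h => by omega, fun m h => by omega⟩
  | succ n ih =>
    intro x
    obtain ⟨c, h1, h2, h3⟩ := ih (fun i : Fin n => x i.castSucc)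
    obtain ⟨a, ha⟩ : ∃ a, a = x (Fin.last n) := ⟨_, rfl⟩
    obtain ⟨d, hd⟩ : ∃ d : ℕ → ℝ, ∀ k, d k = (if k = n then a else 0) + (if k = 0 then 0 else c (k - 1)) -
      (if k < n then a * c k else 0) := ⟨_, fun _ => rfl⟩
    refine ⟨d, fun t => ?_, fun m hm => ?_, fun m hm => ?_⟩
    · rw [Fin.prod_univ_castSucc, h1 t, ← ha]
      have e1 : ∑ k ∈ range (n + 1), d k * t ^ k = a * t ^ n + t * ∑ k ∈ range n, c k * t ^ k -
          a * ∑ k ∈ range n, c k * t ^ k := by
        have f1 : ∑ k ∈ range (n + 1), (if k = n then a else 0) * t ^ k = a * t ^ n := by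
          rw [sum_range_succ, if_pos rfl, sum_eq_zero, zero_add]
          intro k hk
          rw [mem_range] at hk
          rw [if_neg (by omega), zero_mul]
        have f2 : ∑ k ∈ range (n + 1), (if k = 0 then 0 else c (k - 1)) * t ^ k =
            t * ∑ k ∈ range n, c k * t ^ k := by
          rw [sum_range_succ', if_pos rfl, zero_mul, add_zero, mul_sum]
          apply sum_congr rfl
          intro k _
          rw [if_neg (by omega), Nat.add_sub_cancel, pow_succ]
          ring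
        have f3 : ∑ k ∈ range (n + 1), (if k < n then a * c k else 0) * t ^ k =
            a * ∑ k ∈ range n, c k * t ^ k := by
          rw [sum_range_succ, if_neg (lt_irrefl n), zero_mul, add_zero, mul_sum]
          apply sum_congr rfl
          intro k hk
          rw [mem_range] at hk
          rw [if_pos hk]
          ring
        rw [← f1, ← f2, ← f3, ← sum_add_distrib, ← sum_sub_distrib]
        apply sum_congr rfl
        intro k _
        rw [hd k]
        ring
      rw [e1]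
      ring
    · have hm' : m = n := by omega
      rw [hd m, hm', if_pos rfl, if_neg (lt_irrefl n), sub_zero, p1_snoc, ← ha]
      rcases Nat.eq_zero_or_pos n with h | h
      · subst h
        simp [p1]
      · rw [if_neg (by omega), h2 (n - 1) (by omega), add_comm]
    · have hm' : n = m + 1 := by omega
      have i1 : (if m = n then a else 0) = 0 := if_neg (by omega)
      have i3 : (if m < n then a * c m else 0) = a * c m := if_pos (by omega)
      rw [hd m, i1, i3, h2 m hm', p1_snoc, p2_snoc, ← ha]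
      rcases Nat.eq_zero_or_pos m with h | h
      · subst h
        subst hm'
        simp only [if_true, p1, p2, Fin.sum_univ_succ, Fin.sum_univ_zero]
        ring
      · rw [if_neg (by omega), h3 (m - 1) (by omega)]
        ring

lemma pow_eq {n : ℕ} (x : Fin n → ℝ) : ∃ c : ℕ → ℝ,
    (∀ i, x i ^ n = ∑ k : Fin n, c k * x i ^ (k : ℕ)) ∧
    (∀ m, n = m + 1 → c m = p1 x) ∧ (∀ m, n = m + 2 → c m = -((p1 x ^ 2 - p2 x) / 2)) := by
  obtain ⟨c, h1, h2, h3⟩ := vieta n x
  refine ⟨c, fun i => ?_, h2, h3⟩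
  have h4 := h1 (x i)
  rw [prod_eq_zero (mem_univ i) (sub_self _), sum_range (fun k => c k * x i ^ k)] at h4
  linarith

/-- replacing the last column -/
lemma det_last {n : ℕ} (A : Matrix (Fin (n + 1)) (Fin (n + 1)) ℝ) (c : Fin (n + 1) → ℝ) :
    (A.updateCol (Fin.last n) (fun i => ∑ k, c k * A i k)).det = c (Fin.last n) * A.det := by
  have := Matrix.det_updateCol_sum A (Fin.last n) c
  simpa [smul_eq_mul] using this

lemma B0 {n : ℕ} (x : Fin n → ℝ) : alt (fun k => (k : ℕ)) x = vd x := rfl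

lemma B1 {n : ℕ} (x : Fin (n + 1) → ℝ) : alt (E1 (n + 1)) x = vd x * p1 x := by
  obtain ⟨c, h1, h2, _⟩ := pow_eq x
  have h3 := det_last (Matrix.vandermonde x) (fun k => c k)
  have e : (Matrix.vandermonde x).updateCol (Fin.last n) (fun i => ∑ k : Fin (n + 1), c k * Matrix.vandermonde x i k) =
      Matrix.of fun i k => x i ^ E1 (n + 1) k := by
    ext i k
    rw [Matrix.updateCol_apply, Matrix.of_apply]
    unfold E1
    split_ifs with h4 h5 h5
    · rw [h1 i]
      rfl
    · exact absurd (by rw [h4]; rfl) h5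
    · exact absurd (Fin.ext (by simpa using h5)) h4
    · rfl
  rw [e] at h3
  unfold alt vd
  rw [h3]
  have h6 : c ((Fin.last n : Fin (n + 1)) : ℕ) = p1 x := h2 _ (by simp)
  rw [h6, mul_comm]

lemma B3 {n : ℕ} (x : Fin (n + 1) → ℝ) : alt (E3 (n + 1)) x = vd x * ((p1 x ^ 2 + p2 x) / 2) := by
  obtain ⟨c, h1, h2, h2'⟩ := pow_eq x
  obtain ⟨d, hd⟩ : ∃ d : ℕ → ℝ, ∀ k, d k = p1 x * c k + (if k = 0 then 0 else c (k - 1)) := ⟨_, fun _ => rfl⟩
  have hcn : c n = p1 x := h2 n rfl
  have hpow : ∀ i, x i ^ (n + 2) = ∑ k : Fin (n + 1), d k * x i ^ (k : ℕ) := by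
    intro i
    have a1 := h1 i
    have a2 : ∑ k : Fin (n + 1), d k * x i ^ (k : ℕ) = p1 x * ∑ k : Fin (n + 1), c k * x i ^ (k : ℕ) +
        ∑ k : Fin (n + 1), (if (k : ℕ) = 0 then 0 else c ((k : ℕ) - 1)) * x i ^ (k : ℕ) := by
      rw [mul_sum, ← sum_add_distrib]
      apply sum_congr rfl
      intro k _
      rw [hd]
      ring
    have a3 : ∑ k : Fin (n + 1), (if (k : ℕ) = 0 then 0 else c ((k : ℕ) - 1)) * x i ^ (k : ℕ) =
        x i * ∑ k : Fin n, c k * x i ^ (k : ℕ) := by
      rw [Fin.sum_univ_succ, mul_sum]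
      simp only [Fin.val_zero, if_true, zero_mul, zero_add, Fin.val_succ]
      apply sum_congr rfl
      intro k _
      rw [if_neg (by omega), Nat.add_sub_cancel, pow_succ]
      ring
    rw [Fin.sum_univ_castSucc] at a1
    simp only [Fin.val_castSucc, Fin.val_last] at a1
    rw [a2, a3, ← h1 i]
    have a4 : ∑ k : Fin n, c k * x i ^ (k : ℕ) = x i ^ (n + 1) - p1 x * x i ^ n := by
      rw [a1, hcn]; ring
    rw [a4]
    ring
  have h3 := det_last (Matrix.vandermonde x) (fun k => d k)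
  have e : (Matrix.vandermonde x).updateCol (Fin.last n) (fun i => ∑ k : Fin (n + 1), d k * Matrix.vandermonde x i k) =
      Matrix.of fun i k => x i ^ E3 (n + 1) k := by
    ext i k
    rw [Matrix.updateCol_apply, Matrix.of_apply]
    unfold E3
    split_ifs with h4 h5 h5
    · rw [hpow i]
      rfl
    · exact absurd (by rw [h4]; rfl) h5
    · exact absurd (Fin.ext (by simpa using h5)) h4
    · rfl
  rw [e] at h3
  unfold alt vd
  rw [h3]
  have h6 : d ((Fin.last n : Fin (n + 1)) : ℕ) = (p1 x ^ 2 + p2 x) / 2 := by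
    rw [Fin.val_last, hd, hcn]
    rcases Nat.eq_zero_or_pos n with h | h
    · subst h
      rw [if_pos rfl]
      simp only [p1, p2, Fin.sum_univ_succ, Fin.sum_univ_zero]
      ring
    · rw [if_neg (by omega), h2' (n - 1) (by omega)]
      ring
  rw [h6, mul_comm]

lemma B2 {n : ℕ} (x : Fin (n + 2) → ℝ) : alt (E2 (n + 2)) x = vd x * ((p1 x ^ 2 - p2 x) / 2) := by
  obtain ⟨c, h1, _, h2⟩ := pow_eq x
  obtain ⟨u, hu⟩ : ∃ u : Fin (n + 2), u = (Fin.last n).castSucc := ⟨_, rfl⟩
  obtain ⟨v, hv⟩ : ∃ v : Fin (n + 2), v = Fin.last (n + 1) := ⟨_, rfl⟩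
  have huv : u ≠ v := by
    rw [hu, hv]
    intro h
    have := congrArg Fin.val h
    simp at this
  obtain ⟨σ, hσ⟩ : ∃ σ : Equiv.Perm (Fin (n + 2)), σ = Equiv.swap u v := ⟨_, rfl⟩
  have h3 := det_last ((Matrix.vandermonde x).submatrix id σ) (fun k => c (σ k))
  have e : ((Matrix.vandermonde x).submatrix id σ).updateCol (Fin.last (n + 1))
      (fun i => ∑ k : Fin (n + 2), c (σ k) * (Matrix.vandermonde x).submatrix id σ i k) =
      Matrix.of fun i k => x i ^ E2 (n + 2) k := by
    ext i k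
    rw [Matrix.updateCol_apply, Matrix.of_apply]
    unfold E2
    by_cases h4 : k = Fin.last (n + 1)
    · have e1 : ((Fin.last (n + 1) : Fin (n + 2)) : ℕ) + 1 = n + 2 := by simp
      rw [if_pos h4, h4, if_pos (by simp), e1, h1 i]
      exact Equiv.sum_comp σ (fun k : Fin (n + 2) => c k * x i ^ (k : ℕ))
    · rw [if_neg h4]
      show x i ^ ((σ k : Fin (n + 2)) : ℕ) = _
      by_cases h5 : k = u
      · rw [h5, hσ, Equiv.swap_apply_left, hv, hu, if_pos (by simp)]
        simp
      · rw [hσ, Equiv.swap_apply_of_ne_of_ne h5 (by rw [hv]; exact h4), if_neg]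
        intro h6
        have h7 := k.2
        have h8 : (k : ℕ) = n ∨ (k : ℕ) = n + 1 := by omega
        rcases h8 with h8 | h8
        · exact h5 (by rw [hu]; exact Fin.ext (by simpa using h8))
        · exact h4 (Fin.ext (by simpa using h8))
  rw [e, Matrix.det_permute', hσ, Equiv.Perm.sign_swap huv, ← hv, Equiv.swap_apply_right, hu] at h3
  unfold alt vd
  rw [h3]
  have h6 : c (((Fin.last n).castSucc : Fin (n + 2)) : ℕ) = -((p1 x ^ 2 - p2 x) / 2) := h2 _ (by simp)
  rw [h6]
  push_cast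
  ring

theorem t_BIAL : S_BIAL := by
  intro n x
  refine ⟨B0 x, fun h => ?_, fun h => ?_, fun h => ?_⟩
  · obtain ⟨m, rfl⟩ : ∃ m, n = m + 1 := ⟨n - 1, by omega⟩
    exact B1 x
  · obtain ⟨m, rfl⟩ : ∃ m, n = m + 2 := ⟨n - 2, by omega⟩
    exact B2 x
  · obtain ⟨m, rfl⟩ : ∃ m, n = m + 1 := ⟨n - 1, by omega⟩
    exact B3 x

end Pool.Agent.L0h10.GT
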