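import Pool.Agent.L0h31.GT.Stm

/-!
# Gelfand-Tsetlin polytopes: module CHN (order statistics)
-/

set_option autoImplicit false

open MeasureTheory Filter Topology ProbabilityTheory

namespace Pool.Agent.L0h10.GT

open Pool.Agent.L0h31.GT

/-- the uniform distribution on `[0, 1]` -/
noncomputable def μ0 : Measure ℝ := volume.restrict (Set.Icc 0 1)

instance : IsProbabilityMeasure μ0 := ⟨by unfold μ0; simp⟩

/-- the uniform distribution on the cube -/
noncomputable def PN (N : ℕ) : Measure (Fin N → ℝ) := Measure.pi fun _ => μ0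

instance (N : ℕ) : IsProbabilityMeasure (PN N) := by unfold PN; infer_instance

/-- the number of the coordinates in `B` -/
noncomputable def SS {N : ℕ} (B : Set ℝ) (u : Fin N → ℝ) : ℝ := ∑ k, B.indicator (fun _ => (1 : ℝ)) (u k)

lemma SS_meas {N : ℕ} {B : Set ℝ} (hB : MeasurableSet B) : Measurable (SS B : (Fin N → ℝ) → ℝ) := by
  unfold SS
  exact Finset.measurable_sum _ fun k _ => (measurable_const.indicator hB).comp (measurable_pi_apply k)

lemma SS_perm {N : ℕ} (B : Set ℝ) (σ : Equiv.Perm (Fin N)) (u : Fin N → ℝ) : SS B (u ∘ σ) = SS B u := by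
  unfold SS
  exact Equiv.sum_comp σ (fun k => B.indicator (fun _ => (1 : ℝ)) (u k))

lemma cheb {N : ℕ} (hN : 1 ≤ N) {B : Set ℝ} (hB : MeasurableSet B) {t δ : ℝ} (hδ : 0 < δ) (ht : μ0.real B = t) :
    (PN N).real {u | δ * N ≤ |SS B u - N * t|} ≤ 1 / (4 * δ ^ 2 * N) := by
  have hN0 : (0 : ℝ) < N := by exact_mod_cast hN
  obtain ⟨X, hX⟩ : ∃ X : ℝ → ℝ, X = B.indicator (fun _ => 1) := ⟨_, rfl⟩
  have hXm : Measurable X := by rw [hX]; exact measurable_const.indicator hB
  have hXb : ∀ y, X y ∈ Set.Icc (0 : ℝ) 1 := by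
    intro y
    rw [hX]
    by_cases h : y ∈ B
    · rw [Set.indicator_of_mem h]; exact ⟨zero_le_one, le_rfl⟩
    · rw [Set.indicator_of_notMem h]; exact ⟨le_rfl, zero_le_one⟩
  have hL : MemLp X 2 μ0 := memLp_of_bounded (ae_of_all _ hXb) hXm.aestronglyMeasurable 2
  have hLi : ∀ i : Fin N, MemLp (fun ω : Fin N → ℝ => X (ω i)) 2 (PN N) := fun i =>
    hL.comp_measurePreserving (measurePreserving_eval (fun _ : Fin N => μ0) i)
  have hLS : MemLp (∑ i, fun ω : Fin N → ℝ => X (ω i)) 2 (PN N) := memLp_finsetSum' _ fun i _ => hLi i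
  have hSe : ∀ u : Fin N → ℝ, (∑ i, fun ω : Fin N → ℝ => X (ω i)) u = SS B u := by
    intro u
    rw [Finset.sum_apply, hX]
    rfl
  have hmean : ∫ u, (∑ i, fun ω : Fin N → ℝ => X (ω i)) u ∂(PN N) = N * t := by
    have e1 : ∀ u : Fin N → ℝ, (∑ i, fun ω : Fin N → ℝ => X (ω i)) u = ∑ i, X (u i) := fun u => Finset.sum_apply _ _ _
    simp only [e1]
    rw [integral_finsetSum _ fun i _ => (hLi i).integrable (by norm_num)]
    have e2 : ∀ i : Fin N, ∫ u, X (u i) ∂(PN N) = t := by
      intro i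
      have := (measurePreserving_eval (fun _ : Fin N => μ0) i)
      have h3 : ∫ u, X (u i) ∂(PN N) = ∫ y, X y ∂μ0 := by
        rw [← this.map_eq, integral_map (measurable_pi_apply i).aemeasurable hXm.aestronglyMeasurable]
        rfl
      rw [h3, hX, integral_indicator hB, setIntegral_const, smul_eq_mul, mul_one, ← ht]
    rw [Finset.sum_congr rfl fun i _ => e2 i, Finset.sum_const, Finset.card_univ, Fintype.card_fin, nsmul_eq_mul]
  have hvar : variance (∑ i, fun ω : Fin N → ℝ => X (ω i)) (PN N) ≤ N * (1 / 4) := by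
    have e3 : variance (∑ i, fun ω : Fin N → ℝ => X (ω i)) (PN N) = ∑ _i : Fin N, variance X μ0 :=
      variance_sum_pi (μ := fun _ : Fin N => μ0) (X := fun _ => X) (fun _ => hL)
    rw [e3, Finset.sum_const, Finset.card_univ, Fintype.card_fin, nsmul_eq_mul]
    apply mul_le_mul_of_nonneg_left _ hN0.le
    have h4 := variance_le_sub_mul_sub (μ := μ0) (ae_of_all _ hXb) hXm.aemeasurable
    refine h4.trans ?_
    nlinarith [sq_nonneg (2 * (∫ y, X y ∂μ0) - 1)]
  have h1 := meas_ge_le_variance_div_sq hLS (c := δ * N) (by positivity)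
  rw [hmean] at h1
  simp only [hSe] at h1
  unfold Measure.real
  refine ENNReal.toReal_le_of_le_ofReal (by positivity) (h1.trans (ENNReal.ofReal_le_ofReal ?_))
  rw [div_le_div_iff₀ (by positivity) (by positivity)]
  have h5 : 0 ≤ 4 * δ ^ 2 * N := by positivity
  calc variance (∑ i, fun ω : Fin N → ℝ => X (ω i)) (PN N) * (4 * δ ^ 2 * N) ≤ N * (1 / 4) * (4 * δ ^ 2 * N) :=
        mul_le_mul_of_nonneg_right hvar h5
    _ = 1 * (δ * N) ^ 2 := by ring

lemma mp_perm {N : ℕ} (σ : Equiv.Perm (Fin N)) :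
    MeasurePreserving (fun u : Fin N → ℝ => u ∘ σ) (PN N) (PN N) := by
  have hm : Measurable (fun u : Fin N → ℝ => u ∘ σ) := measurable_pi_lambda _ fun i => measurable_pi_apply (σ i)
  refine ⟨hm, ?_⟩
  unfold PN
  symm
  apply Measure.pi_eq
  intro s hs
  rw [Measure.map_apply hm (MeasurableSet.univ_pi hs)]
  have e : (fun u : Fin N → ℝ => u ∘ σ) ⁻¹' (Set.univ.pi s) = Set.univ.pi (fun j => s (σ.symm j)) := by
    ext u
    simp only [Set.mem_preimage, Set.mem_univ_pi, Function.comp]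
    constructor
    · intro h j
      simpa using h (σ.symm j)
    · intro h i
      have h1 := h (σ i)
      rwa [Equiv.symm_apply_apply] at h1
  rw [e, Measure.pi_pi]
  exact Equiv.prod_comp σ.symm (fun i => μ0 (s i))

lemma PN_eq (N : ℕ) : PN N = (volume : Measure (Fin N → ℝ)).restrict (Set.univ.pi fun _ => Set.Icc 0 1) := by
  unfold PN μ0
  rw [volume_pi, Measure.restrict_pi_pi]

lemma null_eq {N : ℕ} {i j : Fin N} (hij : i ≠ j) : (PN N) {u | u i = u j} = 0 := by
  rw [PN_eq]
  refine nonpos_iff_eq_zero.1 ((Measure.restrict_apply_le _ _).trans ?_)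
  obtain ⟨W, hW⟩ : ∃ W : Submodule ℝ (Fin N → ℝ), W = LinearMap.ker
    ((LinearMap.proj i : (Fin N → ℝ) →ₗ[ℝ] ℝ) - LinearMap.proj j) := ⟨_, rfl⟩
  have h1 : ({u | u i = u j} : Set (Fin N → ℝ)) = W := by
    ext u
    rw [hW]
    simp [sub_eq_zero]
  rw [h1]
  apply le_of_eq
  apply Measure.addHaar_submodule
  intro h2
  have h3 : (Pi.single i 1 : Fin N → ℝ) ∈ W := by rw [h2]; trivial
  rw [hW] at h3
  simp [Pi.single_eq_of_ne hij.symm] at h3

lemma null_inj (N : ℕ) : PN N {u | ¬ Function.Injective u} = 0 := by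
  have h1 : {u : Fin N → ℝ | ¬ Function.Injective u} ⊆ ⋃ i, ⋃ j, ⋃ (_ : i ≠ j), {u | u i = u j} := by
    intro u hu
    have h2 : ¬ Function.Injective u := hu
    unfold Function.Injective at h2
    push Not at h2
    obtain ⟨i, j, h3, h4⟩ := h2
    exact Set.mem_iUnion.2 ⟨i, Set.mem_iUnion.2 ⟨j, Set.mem_iUnion.2 ⟨h4, h3⟩⟩⟩
  refine measure_mono_null h1 ?_
  rw [measure_iUnion_null_iff]
  intro i
  rw [measure_iUnion_null_iff]
  intro j
  rw [measure_iUnion_null_iff]
  intro hij
  exact null_eq hij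

lemma sym {N : ℕ} (E : Set (Fin N → ℝ)) (hE : MeasurableSet E)
    (hs : ∀ (σ : Equiv.Perm (Fin N)) (u : Fin N → ℝ), u ∘ σ ∈ E ↔ u ∈ E) :
    (N.factorial : ENNReal) * PN N (E ∩ {u | Monotone u}) = PN N E := by
  classical
  obtain ⟨M, hM⟩ : ∃ M : Equiv.Perm (Fin N) → Set (Fin N → ℝ), ∀ σ, M σ = {u | StrictMono (u ∘ σ)} :=
    ⟨_, fun _ => rfl⟩
  have hmeas : ∀ σ, MeasurableSet (M σ) := by
    intro σ
    have e : M σ = ⋂ i, ⋂ j, ⋂ (_ : i < j), {u : Fin N → ℝ | u (σ i) < u (σ j)} := by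
      rw [hM]
      ext u
      simp only [Set.mem_iInter]
      exact ⟨fun h i j hij => h hij, fun h i j hij => h i j hij⟩
    rw [e]
    exact MeasurableSet.iInter fun i => MeasurableSet.iInter fun j => MeasurableSet.iInter fun _ =>
      measurableSet_lt (measurable_pi_apply _) (measurable_pi_apply _)
  have hinj : ∀ σ, ∀ u ∈ M σ, Function.Injective u := by
    intro σ u hu
    rw [hM] at hu
    have h1 : StrictMono (u ∘ σ) := hu
    have h2 := h1.injective
    intro x y hxy
    have h3 : (u ∘ σ) (σ.symm x) = (u ∘ σ) (σ.symm y) := by simpa using hxy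
    exact σ.symm.injective (h2 h3)
  have hdisj : Pairwise (Function.onFun Disjoint fun σ => E ∩ M σ) := by
    intro σ τ hστ
    rw [Function.onFun, Set.disjoint_left]
    rintro u ⟨_, h1⟩ ⟨_, h2⟩
    have h0 := hinj σ u h1
    rw [hM] at h1 h2
    have h3 : StrictMono (u ∘ σ) := h1
    have h4 : StrictMono (u ∘ τ) := h2
    have h5 := Tuple.unique_monotone h3.monotone h4.monotone
    apply hστ
    ext i
    have := congrFun h5 i
    exact congrArg _ (h0 this)
  have h1 : PN N E = PN N (⋃ σ, E ∩ M σ) := by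
    apply le_antisymm
    · have h2 : E ⊆ (⋃ σ, E ∩ M σ) ∪ {u | ¬ Function.Injective u} := by
        intro u hu
        by_cases h : Function.Injective u
        · left
          refine Set.mem_iUnion.2 ⟨Tuple.sort u, hu, ?_⟩
          rw [hM]
          exact (Tuple.monotone_sort u).strictMono_of_injective (h.comp (Tuple.sort u).injective)
        · right; exact h
      refine (measure_mono h2).trans ((measure_union_le _ _).trans ?_)
      rw [null_inj, add_zero]
    · exact measure_mono (Set.iUnion_subset fun σ => Set.inter_subset_left)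
  have h2 : ∀ σ, PN N (E ∩ M σ) = PN N (E ∩ M 1) := by
    intro σ
    rw [← (mp_perm σ).measure_preimage ((hE.inter (hmeas 1)).nullMeasurableSet)]
    congr 1
    ext u
    rw [Set.mem_preimage, Set.mem_inter_iff, Set.mem_inter_iff, hs, hM, hM]
    rfl
  have h3 : PN N (E ∩ M 1) = PN N (E ∩ {u | Monotone u}) := by
    apply le_antisymm
    · apply measure_mono
      rintro u ⟨ha, hb⟩
      rw [hM] at hb
      have hb' : StrictMono u := hb
      exact ⟨ha, hb'.monotone⟩
    · have h4 : E ∩ {u | Monotone u} ⊆ (E ∩ M 1) ∪ {u | ¬ Function.Injective u} := by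
        rintro u ⟨ha, hb⟩
        by_cases h : Function.Injective u
        · left
          refine ⟨ha, ?_⟩
          rw [hM]
          exact Monotone.strictMono_of_injective hb h
        · right; exact h
      refine (measure_mono h4).trans ((measure_union_le _ _).trans ?_)
      rw [null_inj, add_zero]
  rw [h1, measure_iUnion hdisj fun σ => hE.inter (hmeas σ), tsum_fintype, Finset.sum_congr rfl fun σ _ => h2 σ,
    Finset.sum_const, Finset.card_univ, Fintype.card_perm, Fintype.card_fin, nsmul_eq_mul, h3]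

/-- the conditions for the numbers of points -/
def EE {ι : Type} (a b : ι → ℝ) (N : ℕ) (x : ι → ℝ) : Set (Fin N → ℝ) :=
  {u | ∀ (i : ι) (j : Fin N), (N * b i ≤ (j : ℝ) → SS (Set.Iio (x i)) u ≤ j) ∧
    ((j : ℝ) + 1 ≤ N * a i → (j : ℝ) + 1 ≤ SS (Set.Iic (x i)) u)}

lemma EE_meas {ι : Type} [Fintype ι] (a b : ι → ℝ) (N : ℕ) (x : ι → ℝ) : MeasurableSet (EE a b N x) := by
  have e : EE a b N x = ⋂ i, ⋂ j : Fin N, (⋂ (_ : N * b i ≤ (j : ℝ)), {u | SS (Set.Iio (x i)) u ≤ j}) ∩
      ⋂ (_ : (j : ℝ) + 1 ≤ N * a i), {u | (j : ℝ) + 1 ≤ SS (Set.Iic (x i)) u} := by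
    ext u
    simp only [Set.mem_iInter, Set.mem_inter_iff]
    rfl
  rw [e]
  exact MeasurableSet.iInter fun i => MeasurableSet.iInter fun j => MeasurableSet.inter
    (MeasurableSet.iInter fun _ => measurableSet_le (SS_meas measurableSet_Iio) measurable_const)
    (MeasurableSet.iInter fun _ => measurableSet_le measurable_const (SS_meas measurableSet_Iic))

lemma SS_card {N : ℕ} (B : Set ℝ) [DecidablePred (· ∈ B)] (c : Fin N → ℝ) :
    SS B c = ((Finset.univ.filter (fun k => c k ∈ B)).card : ℝ) := by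
  unfold SS
  simp only [Set.indicator_apply]
  rw [Finset.sum_boole]

lemma mono_lt {N : ℕ} {c : Fin N → ℝ} (hc : Monotone c) (x : ℝ) (j : Fin N) :
    x ≤ c j ↔ SS (Set.Iio x) c ≤ j := by
  classical
  rw [SS_card]
  constructor
  · intro h
    have h1 : Finset.univ.filter (fun k => c k ∈ Set.Iio x) ⊆ Finset.Iio j := by
      intro k hk
      rw [Finset.mem_filter] at hk
      rw [Finset.mem_Iio]
      by_contra h2
      have h3 := hc (not_lt.1 h2)
      have h4 : c k < x := hk.2
      linarith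
    have h2 := Finset.card_le_card h1
    rw [Fin.card_Iio] at h2
    exact_mod_cast h2
  · intro h
    by_contra h1
    push Not at h1
    have h2 : Finset.Iic j ⊆ Finset.univ.filter (fun k => c k ∈ Set.Iio x) := by
      intro k hk
      rw [Finset.mem_Iic] at hk
      rw [Finset.mem_filter]
      exact ⟨Finset.mem_univ _, lt_of_le_of_lt (hc hk) h1⟩
    have h3 := Finset.card_le_card h2
    rw [Fin.card_Iic] at h3
    have h4 : ((Finset.univ.filter (fun k => c k ∈ Set.Iio x)).card) ≤ (j : ℕ) := by exact_mod_cast h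
    omega

lemma mono_le {N : ℕ} {c : Fin N → ℝ} (hc : Monotone c) (x : ℝ) (j : Fin N) :
    c j ≤ x ↔ (j : ℝ) + 1 ≤ SS (Set.Iic x) c := by
  classical
  rw [SS_card]
  constructor
  · intro h
    have h2 : Finset.Iic j ⊆ Finset.univ.filter (fun k => c k ∈ Set.Iic x) := by
      intro k hk
      rw [Finset.mem_Iic] at hk
      rw [Finset.mem_filter]
      exact ⟨Finset.mem_univ _, (hc hk).trans h⟩
    have h3 := Finset.card_le_card h2
    rw [Fin.card_Iic] at h3
    exact_mod_cast h3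
  · intro h
    by_contra h1
    push Not at h1
    have h2 : Finset.univ.filter (fun k => c k ∈ Set.Iic x) ⊆ Finset.Iio j := by
      intro k hk
      rw [Finset.mem_filter] at hk
      rw [Finset.mem_Iio]
      by_contra h2
      have h3 := hc (not_lt.1 h2)
      have h4 : c k ≤ x := hk.2
      linarith
    have h3 := Finset.card_le_card h2
    rw [Fin.card_Iio] at h3
    have h4 : (j : ℕ) + 1 ≤ ((Finset.univ.filter (fun k => c k ∈ Set.Iic x)).card) := by exact_mod_cast h
    omega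

/-- the volume of `Ch` is a probability -/
lemma key {ι : Type} [Fintype ι] (a b : ι → ℝ) (N : ℕ) (x : ι → ℝ) :
    (Nat.factorial N : ℝ) * (volume (Ch a b N x)).toReal = (PN N).real (EE a b N x) := by
  have h1 : volume (Ch a b N x) = PN N (EE a b N x ∩ {u | Monotone u}) := by
    rw [PN_eq, Measure.restrict_apply' (MeasurableSet.univ_pi fun _ => measurableSet_Icc)]
    congr 1
    ext c
    constructor
    · rintro ⟨ha, hb, hc⟩
      have hm : Monotone c := fun j k hjk => hb j k hjk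
      refine ⟨⟨fun i j => ?_, hm⟩, fun j _ => ha j⟩
      rw [← mono_lt hm, ← mono_le hm]
      exact hc i j
    · rintro ⟨⟨ha, hm⟩, hb⟩
      refine ⟨fun j => hb j (Set.mem_univ j), fun j k hjk => hm hjk, fun i j => ?_⟩
      have := ha i j
      rw [← mono_lt hm, ← mono_le hm] at this
      exact this
  have h2 := sym (EE a b N x) (EE_meas a b N x) (by
    intro σ u
    unfold EE
    constructor
    · intro h i j
      have := h i j
      rw [SS_perm, SS_perm] at this
      exact this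
    · intro h i j
      rw [SS_perm, SS_perm]
      exact h i j)
  unfold Measure.real
  rw [← h2, h1, ENNReal.toReal_mul, ENNReal.toReal_natCast]

lemma μ0_Iio {t : ℝ} (h0 : 0 ≤ t) (h1 : t ≤ 1) : μ0.real (Set.Iio t) = t := by
  unfold μ0 Measure.real
  rw [Measure.restrict_apply measurableSet_Iio]
  have e : Set.Iio t ∩ Set.Icc 0 1 = Set.Ico 0 t := by
    ext y
    simp only [Set.mem_inter_iff, Set.mem_Iio, Set.mem_Icc, Set.mem_Ico]
    constructor
    · rintro ⟨ha, hb, _⟩; exact ⟨hb, ha⟩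
    · rintro ⟨ha, hb⟩; exact ⟨hb, ha, by linarith⟩
  rw [e, Real.volume_Ico, sub_zero, ENNReal.toReal_ofReal h0]

lemma μ0_Iic {t : ℝ} (h0 : 0 ≤ t) (h1 : t ≤ 1) : μ0.real (Set.Iic t) = t := by
  unfold μ0 Measure.real
  rw [Measure.restrict_apply measurableSet_Iic]
  have e : Set.Iic t ∩ Set.Icc 0 1 = Set.Icc 0 t := by
    ext y
    simp only [Set.mem_inter_iff, Set.mem_Iic, Set.mem_Icc]
    constructor
    · rintro ⟨ha, hb, _⟩; exact ⟨hb, ha⟩
    · rintro ⟨ha, hb⟩; exact ⟨hb, ha, by linarith⟩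
  rw [e, Real.volume_Icc, sub_zero, ENNReal.toReal_ofReal h0]

lemma tend0 (C : ℝ) : Tendsto (fun N : ℕ => C / (N : ℝ)) atTop (𝓝 0) :=
  tendsto_natCast_atTop_atTop.const_div_atTop C

theorem t_CHN : S_CHN := by
  intro ι _ a b hab
  refine ⟨fun N x => ?_, fun x hx => ?_, fun x hx0 hx => ?_⟩
  · rw [key]
    exact measureReal_le_one
  · simp only [key]
    obtain ⟨δ, hδ⟩ : ∃ δ : ι → ℝ, ∀ i, δ i = min (b i - x i) (x i - a i) := ⟨_, fun _ => rfl⟩
    have hδ0 : ∀ i, 0 < δ i := by
      intro i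
      rw [hδ]
      exact lt_min (by linarith [(hx i).2]) (by linarith [(hx i).1])
    have hlow : ∀ᶠ N : ℕ in atTop, 1 - (∑ i, 2 * (1 / (4 * δ i ^ 2))) / N ≤ (PN N).real (EE a b N x) := by
      filter_upwards [eventually_ge_atTop 1] with N hN
      have hN0 : (0 : ℝ) < N := by exact_mod_cast hN
      obtain ⟨B1, hB1⟩ : ∃ B1 : ι → Set (Fin N → ℝ), ∀ i, B1 i = {u | δ i * N ≤ |SS (Set.Iio (x i)) u - N * x i|} :=
        ⟨_, fun _ => rfl⟩
      obtain ⟨B2, hB2⟩ : ∃ B2 : ι → Set (Fin N → ℝ), ∀ i, B2 i = {u | δ i * N ≤ |SS (Set.Iic (x i)) u - N * x i|} :=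
        ⟨_, fun _ => rfl⟩
      have hx01 : ∀ i, 0 ≤ x i ∧ x i ≤ 1 := fun i =>
        ⟨by linarith [(hab i).1, (hx i).1], by linarith [(hab i).2.2, (hx i).2]⟩
      have hsub : (EE a b N x)ᶜ ⊆ ⋃ i, B1 i ∪ B2 i := by
        intro u hu
        by_contra hne
        apply hu
        intro i j
        have h1 : u ∉ B1 i ∪ B2 i := fun h => hne (Set.mem_iUnion.2 ⟨i, h⟩)
        rw [Set.mem_union, not_or, hB1, hB2] at h1
        have h2 : ¬ (δ i * N ≤ |SS (Set.Iio (x i)) u - N * x i|) := h1.1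
        have h3 : ¬ (δ i * N ≤ |SS (Set.Iic (x i)) u - N * x i|) := h1.2
        push Not at h2 h3
        rw [abs_lt] at h2 h3
        have h4 : δ i * N ≤ (b i - x i) * N := mul_le_mul_of_nonneg_right (by rw [hδ]; exact min_le_left _ _) hN0.le
        have h5 : δ i * N ≤ (x i - a i) * N := mul_le_mul_of_nonneg_right (by rw [hδ]; exact min_le_right _ _) hN0.le
        constructor
        · intro h6; nlinarith [h2.2]
        · intro h6; nlinarith [h3.1]
      have h1 : (PN N).real (EE a b N x)ᶜ ≤ (∑ i, 2 * (1 / (4 * δ i ^ 2))) / N := by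
        refine (measureReal_mono hsub).trans ?_
        refine (measureReal_iUnion_fintype_le _).trans ?_
        rw [Finset.sum_div]
        apply Finset.sum_le_sum
        intro i _
        refine (measureReal_union_le _ _).trans ?_
        rw [hB1, hB2]
        have c1 := cheb hN measurableSet_Iio (hδ0 i) (μ0_Iio (hx01 i).1 (hx01 i).2)
        have c2 := cheb hN measurableSet_Iic (hδ0 i) (μ0_Iic (hx01 i).1 (hx01 i).2)
        have e : 2 * (1 / (4 * δ i ^ 2)) / (N : ℝ) = 1 / (4 * δ i ^ 2 * N) + 1 / (4 * δ i ^ 2 * N) := by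
          have := hδ0 i
          field_simp
          ring
        rw [e]
        exact add_le_add c1 c2
      rw [probReal_compl_eq_one_sub (EE_meas a b N x)] at h1
      linarith
    have hup : ∀ᶠ N : ℕ in atTop, (PN N).real (EE a b N x) ≤ 1 := Eventually.of_forall fun N => measureReal_le_one
    have ht : Tendsto (fun N : ℕ => 1 - (∑ i, 2 * (1 / (4 * δ i ^ 2))) / (N : ℝ)) atTop (𝓝 1) := by
      have := (tend0 (∑ i, 2 * (1 / (4 * δ i ^ 2)))).const_sub 1
      rwa [sub_zero] at this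
    exact tendsto_of_tendsto_of_tendsto_of_le_of_le' ht tendsto_const_nhds hlow hup
  · simp only [key]
    obtain ⟨i, hi⟩ := hx
    obtain ⟨δ, hδ0, hup⟩ : ∃ δ : ℝ, 0 < δ ∧ ∀ᶠ N : ℕ in atTop, (PN N).real (EE a b N x) ≤ 1 / (4 * δ ^ 2) / N := by
      have e : ∀ (δ : ℝ) (N : ℕ), 1 / (4 * δ ^ 2) / (N : ℝ) = 1 / (4 * δ ^ 2 * N) := by
        intro δ N
        rw [div_div]
      rcases hi with hi | hi
      · obtain ⟨δ, hδ⟩ : ∃ δ, δ = (a i - x i) / 2 := ⟨_, rfl⟩
        have hδ0 : 0 < δ := by rw [hδ]; linarith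
        refine ⟨δ, hδ0, ?_⟩
        filter_upwards [eventually_ge_atTop 1, tendsto_natCast_atTop_atTop.eventually_ge_atTop (1 / δ)] with N hN hN2
        have hN0 : (0 : ℝ) < N := by exact_mod_cast hN
        rw [div_le_iff₀ hδ0] at hN2
        rw [e]
        refine (measureReal_mono ?_).trans (cheb hN measurableSet_Iic hδ0 (μ0_Iic (hx0 i).1 (hx0 i).2))
        intro u hu
        show δ * N ≤ |SS (Set.Iic (x i)) u - N * x i|
        refine le_trans ?_ (le_abs_self _)
        have hNa : 2 ≤ N * a i := by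
          have : (N : ℝ) * x i ≥ 0 := mul_nonneg hN0.le (hx0 i).1
          have h3 : N * a i = 2 * (N * δ) + N * x i := by rw [hδ]; ring
          linarith
        have hfl : 2 ≤ ⌊(N : ℝ) * a i⌋₊ := Nat.le_floor (by exact_mod_cast hNa)
        have hfN : ⌊(N : ℝ) * a i⌋₊ ≤ N := by
          apply Nat.floor_le_of_le
          exact mul_le_of_le_one_right hN0.le ((hab i).2.1.trans (hab i).2.2)
        have h1 := (hu i ⟨⌊(N : ℝ) * a i⌋₊ - 1, by omega⟩).2
        have h2 : ((⌊(N : ℝ) * a i⌋₊ - 1 : ℕ) : ℝ) + 1 = (⌊(N : ℝ) * a i⌋₊ : ℝ) := by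
          have : ⌊(N : ℝ) * a i⌋₊ - 1 + 1 = ⌊(N : ℝ) * a i⌋₊ := by omega
          exact_mod_cast this
        simp only [h2] at h1
        have h3 := h1 (Nat.floor_le (by linarith))
        have h4 := Nat.lt_floor_add_one ((N : ℝ) * a i)
        have h5 : N * a i = 2 * (N * δ) + N * x i := by rw [hδ]; ring
        nlinarith
      · obtain ⟨δ, hδ⟩ : ∃ δ, δ = (x i - b i) / 2 := ⟨_, rfl⟩
        have hδ0 : 0 < δ := by rw [hδ]; linarith
        refine ⟨δ, hδ0, ?_⟩
        filter_upwards [eventually_ge_atTop 1, tendsto_natCast_atTop_atTop.eventually_ge_atTop (1 / δ)] with N hN hN2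
        have hN0 : (0 : ℝ) < N := by exact_mod_cast hN
        rw [div_le_iff₀ hδ0] at hN2
        rw [e]
        refine (measureReal_mono ?_).trans (cheb hN measurableSet_Iio hδ0 (μ0_Iio (hx0 i).1 (hx0 i).2))
        intro u hu
        show δ * N ≤ |SS (Set.Iio (x i)) u - N * x i|
        refine le_trans ?_ (neg_le_abs _)
        have h5 : N * x i = 2 * (N * δ) + N * b i := by rw [hδ]; ring
        have hxN : N * x i ≤ N := mul_le_of_le_one_right hN0.le (hx0 i).2
        have hb0 : 0 ≤ N * b i := mul_nonneg hN0.le ((hab i).1.trans (hab i).2.1)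
        have h4 := Nat.ceil_lt_add_one hb0
        have hcN : ⌈(N : ℝ) * b i⌉₊ < N := by
          have : (⌈(N : ℝ) * b i⌉₊ : ℝ) < N := by linarith
          exact_mod_cast this
        have h1 := (hu i ⟨⌈(N : ℝ) * b i⌉₊, hcN⟩).1 (Nat.le_ceil _)
        have h1' : SS (Set.Iio (x i)) u ≤ (⌈(N : ℝ) * b i⌉₊ : ℝ) := h1
        linarith
    exact tendsto_of_tendsto_of_tendsto_of_le_of_le' tendsto_const_nhds (tend0 _)
      (Eventually.of_forall fun N => measureReal_nonneg) hup

end Pool.Agent.L0h10.GT
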