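import Pool.Agent.L0h31.GT.Stm

/-!
# Gelfand-Tsetlin polytopes: module GEO
-/

set_option autoImplicit false

open MeasureTheory Filter Topology

namespace Pool.Agent.L0h10.GT

open Pool.Agent.L0h31.GT

/-- the order relations of the patterns, the top row included -/
def RT : (m : ℕ) → (Tri m ⊕ Fin (m + 1)) → (Tri m ⊕ Fin (m + 1)) → Prop
  | 0, _, _ => False
  | (m + 1), Sum.inl i, Sum.inl j => RT m i j
  | (m + 1), Sum.inr k, Sum.inl i => ∃ j : Fin (m + 1), i = (Sum.inr j : Tri m ⊕ Fin (m + 1)) ∧ k = j.castSucc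
  | (m + 1), Sum.inl i, Sum.inr k => ∃ j : Fin (m + 1), i = (Sum.inr j : Tri m ⊕ Fin (m + 1)) ∧ k = j.succ
  | (_ + 1), Sum.inr _, Sum.inr _ => False

lemma elim_eq {m : ℕ} (x : Tri (m + 1) → ℝ) (s : Tri m ⊕ Fin (m + 1)) :
    (Sum.elim (fun t : Tri m => x (Sum.inl t)) (fun j : Fin (m + 1) => x (Sum.inr j)) s : ℝ) = x s := by
  rcases s with s | s <;> rfl

lemma mem_iff : ∀ (m : ℕ) (l : Fin (m + 1) → ℝ) (x : Tri m → ℝ),
    x ∈ GTp m l ↔ ∀ i j, RT m i j → (Sum.elim x l i : ℝ) ≤ Sum.elim x l j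
  | 0, l, x => by
    constructor
    · intro _ i j h
      exact h.elim
    · intro _
      exact Set.mem_univ _
  | (m + 1), l, x => by
    have ih := mem_iff m (fun j => x (Sum.inr j)) (fun t => x (Sum.inl t))
    constructor
    · rintro ⟨h1, h2⟩ i j hij
      have h3 := ih.1 h2
      rcases i with i | k <;> rcases j with j | k'
      · have := h3 i j hij
        rw [elim_eq x i, elim_eq x j] at this
        exact this
      · obtain ⟨j, rfl, rfl⟩ := hij
        exact (h1 j).2
      · obtain ⟨j, rfl, rfl⟩ := hij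
        exact (h1 j).1
      · exact hij.elim
    · intro h
      refine ⟨fun j => ⟨?_, ?_⟩, ?_⟩
      · exact h (Sum.inr j.castSucc) (Sum.inl (Sum.inr j : Tri m ⊕ Fin (m + 1))) ⟨j, rfl, rfl⟩
      · exact h (Sum.inl (Sum.inr j : Tri m ⊕ Fin (m + 1))) (Sum.inr j.succ) ⟨j, rfl, rfl⟩
      · apply ih.2
        intro i j hij
        rw [elim_eq x i, elim_eq x j]
        exact h (Sum.inl i) (Sum.inl j) hij

lemma bounds : ∀ (m : ℕ) (l : Fin (m + 1) → ℝ) (x : Tri m → ℝ), Monotone l → x ∈ GTp m l →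
    ∀ t, l 0 ≤ x t ∧ x t ≤ l (Fin.last m)
  | 0, l, x, _, _ => fun t => (t : Empty).elim
  | (m + 1), l, x, hl, hx => by
    obtain ⟨h1, h2⟩ := hx
    have hμ : Monotone (fun j : Fin (m + 1) => x (Sum.inr j)) := by
      intro i j hij
      rcases eq_or_lt_of_le hij with h | h
      · rw [h]
      · refine (h1 i).2.trans (le_trans (hl ?_) (h1 j).1)
        rw [Fin.le_def]
        rw [Fin.lt_def] at h
        simpa using h
    have ih := bounds m _ _ hμ h2
    have a1 : l 0 ≤ x (Sum.inr 0) := (h1 0).1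
    have a2 : x (Sum.inr (Fin.last m)) ≤ l (Fin.last (m + 1)) := (h1 (Fin.last m)).2
    intro t
    rcases t with t | j
    · exact ⟨a1.trans (ih t).1, (ih t).2.trans a2⟩
    · exact ⟨a1.trans (hμ (Fin.zero_le j)), (hμ (Fin.le_last j)).trans a2⟩

lemma strict : ∀ (m : ℕ) (l : Fin (m + 1) → ℝ), StrictMono l →
    ∃ x : Tri m → ℝ, ∀ i j, RT m i j → (Sum.elim x l i : ℝ) < Sum.elim x l j
  | 0, l, _ => ⟨fun _ => 0, fun i j h => h.elim⟩
  | (m + 1), l, hl => by
    obtain ⟨μ, hμd⟩ : ∃ μ : Fin (m + 1) → ℝ, ∀ j, μ j = (l j.castSucc + l j.succ) / 2 := ⟨_, fun _ => rfl⟩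
    have hcs : ∀ j : Fin (m + 1), l j.castSucc < l j.succ := fun j => hl (Fin.castSucc_lt_succ)
    have hμ : StrictMono μ := by
      intro i j hij
      rw [hμd, hμd]
      have h1 : l i.succ ≤ l j.castSucc := by
        apply hl.monotone
        rw [Fin.le_def]
        rw [Fin.lt_def] at hij
        simpa using hij
      have := hcs i
      have := hcs j
      linarith
    obtain ⟨y, hy⟩ := strict m μ hμ
    refine ⟨fun s : Tri m ⊕ Fin (m + 1) => Sum.elim y μ s, ?_⟩
    intro i j hij
    rcases i with i | k <;> rcases j with j | k'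
    · exact hy i j hij
    · obtain ⟨j, rfl, rfl⟩ := hij
      show μ j < l j.succ
      rw [hμd]
      linarith [hcs j]
    · obtain ⟨j, rfl, rfl⟩ := hij
      show l j.castSucc < μ j
      rw [hμd]
      linarith [hcs j]
    · exact hij.elim

lemma ob_convex {ι : Type} (R : ι → ι → Prop) (a b : ι → ℝ) : Convex ℝ (OB R a b) := by
  intro x hx y hy α β hα hβ hαβ
  refine ⟨fun i => ?_, fun i j hij => ?_⟩
  · have h1 := hx.1 i
    have h2 := hy.1 i
    simp only [Pi.add_apply, Pi.smul_apply, smul_eq_mul]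
    constructor
    · calc a i = α * a i + β * a i := by rw [← add_mul, hαβ, one_mul]
        _ ≤ _ := add_le_add (mul_le_mul_of_nonneg_left h1.1 hα) (mul_le_mul_of_nonneg_left h2.1 hβ)
    · calc α * x i + β * y i ≤ α * b i + β * b i :=
          add_le_add (mul_le_mul_of_nonneg_left h1.2 hα) (mul_le_mul_of_nonneg_left h2.2 hβ)
        _ = b i := by rw [← add_mul, hαβ, one_mul]
  · have h1 := hx.2 i j hij
    have h2 := hy.2 i j hij
    simp only [Pi.add_apply, Pi.smul_apply, smul_eq_mul]
    exact add_le_add (mul_le_mul_of_nonneg_left h1 hα) (mul_le_mul_of_nonneg_left h2 hβ)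

lemma ob_closed {ι : Type} (R : ι → ι → Prop) (a b : ι → ℝ) : IsClosed (OB R a b) := by
  have h : OB R a b = (⋂ i, {x : ι → ℝ | a i ≤ x i} ∩ {x | x i ≤ b i}) ∩
      ⋂ i, ⋂ j, ⋂ (_ : R i j), {x : ι → ℝ | x i ≤ x j} := by
    ext x
    simp only [OB, Set.mem_setOf_eq, Set.mem_inter_iff, Set.mem_iInter]
  rw [h]
  apply IsClosed.inter
  · exact isClosed_iInter fun i => (isClosed_le continuous_const (continuous_apply i)).inter
      (isClosed_le (continuous_apply i) continuous_const)
  · exact isClosed_iInter fun i => isClosed_iInter fun j => isClosed_iInter fun _ =>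
      isClosed_le (continuous_apply i) (continuous_apply j)

lemma ob_compact {ι : Type} (R : ι → ι → Prop) (a b : ι → ℝ) : IsCompact (OB R a b) := by
  apply IsCompact.of_isClosed_subset (isCompact_Icc (a := a) (b := b)) (ob_closed R a b)
  intro x hx
  exact ⟨fun i => (hx.1 i).1, fun i => (hx.1 i).2⟩

lemma as_ob : ∀ (m : ℕ) (l : Fin (m + 1) → ℝ), Monotone l →
    ∃ (R : Tri m → Tri m → Prop) (a b : Tri m → ℝ), (∀ t, l 0 ≤ a t ∧ b t ≤ l (Fin.last m)) ∧
      GTp m l = OB R a b
  | 0, l, _ => by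
    refine ⟨fun _ _ => False, fun _ => 0, fun _ => 0, fun t => (t : Empty).elim, ?_⟩
    ext x
    constructor
    · intro _
      exact ⟨fun i => (i : Empty).elim, fun i => (i : Empty).elim⟩
    · intro _
      exact Set.mem_univ _
  | (m + 1), l, hl => by
    refine ⟨RT m, fun s : Tri m ⊕ Fin (m + 1) => Sum.elim (fun _ => l 0) (fun j => l j.castSucc) s,
      fun s : Tri m ⊕ Fin (m + 1) => Sum.elim (fun _ => l (Fin.last (m + 1))) (fun j => l j.succ) s, ?_, ?_⟩
    · intro t
      rcases t with t | j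
      · exact ⟨le_rfl, le_rfl⟩
      · exact ⟨hl (Fin.zero_le _), hl (Fin.le_last _)⟩
    · ext x
      have ih := mem_iff m (fun j => x (Sum.inr j)) (fun t => x (Sum.inl t))
      constructor
      · intro hx
        have hb := bounds (m + 1) l x hl hx
        obtain ⟨h1, h2⟩ := hx
        refine ⟨?_, ?_⟩
        · intro s
          rcases s with s | j
          · exact hb (Sum.inl s)
          · exact h1 j
        · intro i j hij
          have := ih.1 h2 i j hij
          rw [elim_eq x i, elim_eq x j] at this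
          exact this
      · rintro ⟨h1, h2⟩
        refine ⟨fun j => h1 (Sum.inr j), ?_⟩
        apply ih.2
        intro i j hij
        rw [elim_eq x i, elim_eq x j]
        exact h2 i j hij

theorem t_GEO : S_GEO := by
  intro m l hl
  obtain ⟨R, a, b, hab, hE⟩ := as_ob m l hl
  refine ⟨?_, ?_, ⟨R, a, b, hab, hE⟩, ?_⟩
  · rw [hE]; exact ob_compact R a b
  · rw [hE]; exact ob_convex R a b
  · intro hs
    obtain ⟨x, hx⟩ := strict m l hs
    refine ⟨x, mem_interior.2 ⟨⋂ i, ⋂ j, ⋂ (_ : RT m i j),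
      {y : Tri m → ℝ | (Sum.elim y l i : ℝ) < Sum.elim y l j}, ?_, ?_, ?_⟩⟩
    · intro y hy
      rw [mem_iff]
      intro i j hij
      simp only [Set.mem_iInter, Set.mem_setOf_eq] at hy
      exact (hy i j hij).le
    · have hc : ∀ s : Tri m ⊕ Fin (m + 1), Continuous (fun y : Tri m → ℝ => (Sum.elim y l s : ℝ)) := by
        intro s
        rcases s with s | s
        · exact continuous_apply s
        · exact continuous_const
      exact isOpen_iInter_of_finite fun i => isOpen_iInter_of_finite fun j =>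
        isOpen_iInter_of_finite fun _ => isOpen_lt (hc i) (hc j)
    · simp only [Set.mem_iInter, Set.mem_setOf_eq]
      exact hx

end Pool.Agent.L0h10.GT
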